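import Pool.Agent.helper73.AD.Basic

/-!
Module ad:GS of project MP_a29257_gt : smoothness.
-/

namespace Pool.Agent.helper73.AD

open scoped BigOperators Topology

theorem GS_lc {n : WithTop ℕ∞} : ContDiff ℝ n lc := by
  unfold lc
  exact Real.contDiff_cosh.log (fun x => (Real.cosh_pos x).ne')

theorem GS_ls {n : WithTop ℕ∞} {x : ℝ} (hx : 0 < x) : ContDiffAt ℝ n ls x := by
  unfold ls
  exact Real.contDiff_sinh.contDiffAt.log (Real.sinh_pos_iff.mpr hx).ne'

variable {J : Type} [Fintype J] [DecidableEq J]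

omit [DecidableEq J] in
theorem GS_fst (j : J) {n : WithTop ℕ∞} {z : PS J} : ContDiffAt ℝ n (fun z : PS J => z.1 j) z := by
  have h : ContDiff ℝ n (fun z : PS J => z.1 j) :=
    (contDiff_apply ℝ ℝ j).comp contDiff_fst
  exact h.contDiffAt

omit [DecidableEq J] in
theorem GS_snd (j : J) {n : WithTop ℕ∞} {z : PS J} : ContDiffAt ℝ n (fun z : PS J => z.2 j) z := by
  have h : ContDiff ℝ n (fun z : PS J => z.2 j) :=
    (contDiff_apply ℝ ℝ j).comp contDiff_snd
  exact h.contDiffAt

omit [DecidableEq J] in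
theorem GS_g (A : Arc J) (s s' : Bool) {z : PS J} (hz : z ∈ Cone J) :
    ContDiffAt ℝ 2 (fun z : PS J => A.g s s' z.1) z := by
  have hlc : ∀ f : PS J → ℝ, ContDiffAt ℝ 2 f z → ContDiffAt ℝ 2 (fun z => lc (f z)) z :=
    fun f hf => GS_lc.contDiffAt.comp z hf
  have hls : ∀ j : J, ContDiffAt ℝ 2 (fun z : PS J => ls (z.1 j / 2)) z := by
    intro j
    refine ContDiffAt.comp (g := ls) (f := fun z : PS J => z.1 j / 2) z (GS_ls ?_)
      ((GS_fst j).div_const 2)
    have := hz j
    linarith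
  have hq : ∀ j : J, ContDiffAt ℝ 2 (fun z : PS J => z.1 j) z := fun j => GS_fst j
  cases A with
  | seam a b c =>
    cases s <;> cases s' <;> simp only [Arc.g]
    · exact ((((hlc _ ((((hq a).add (hq b)).add (hq c)).div_const 4)).add
        (hlc _ ((((hq a).add (hq b)).sub (hq c)).div_const 4))).sub (hls a)).sub (hls b)).div_const 2
    · exact ((((hlc _ ((((hq a).sub (hq b)).add (hq c)).div_const 4)).add
        (hlc _ ((((hq a).neg.add (hq b)).add (hq c)).div_const 4))).sub (hls a)).sub (hls b)).div_const 2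
    · exact ((((hlc _ ((((hq a).sub (hq b)).add (hq c)).div_const 4)).add
        (hlc _ ((((hq a).neg.add (hq b)).add (hq c)).div_const 4))).sub (hls a)).sub (hls b)).div_const 2
    · exact ((((hlc _ ((((hq a).add (hq b)).add (hq c)).div_const 4)).add
        (hlc _ ((((hq a).add (hq b)).sub (hq c)).div_const 4))).sub (hls a)).sub (hls b)).div_const 2
  | wave a b c =>
    have hcosh : ∀ j : J, ContDiffAt ℝ 2 (fun z : PS J => Real.cosh (z.1 j / 2)) z :=
      fun j => ((hq j).div_const 2).cosh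
    have hd : ContDiffAt ℝ 2 (fun z : PS J => Real.log 2 + (lc ((z.1 a + z.1 b + z.1 c) / 4)
        + lc ((-z.1 a + z.1 b + z.1 c) / 4)
        + lc ((z.1 a - z.1 b + z.1 c) / 4) + lc ((z.1 a + z.1 b - z.1 c) / 4)) / 2
        - ls (z.1 a / 2)) z := by
      refine (contDiffAt_const.add (ContDiffAt.div_const ?_ 2)).sub (hls a)
      exact (((hlc _ ((((hq a).add (hq b)).add (hq c)).div_const 4)).add
        (hlc _ ((((hq a).neg.add (hq b)).add (hq c)).div_const 4))).add
        (hlc _ ((((hq a).sub (hq b)).add (hq c)).div_const 4))).add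
        (hlc _ ((((hq a).add (hq b)).sub (hq c)).div_const 4))
    cases s <;> cases s' <;> simp only [Arc.g]
    · exact hd
    · refine ContDiffAt.sub (ContDiffAt.log ?_ ?_) (hls a)
      · exact ((hcosh b).mul ((hq a).div_const 2).exp).add (hcosh c)
      · have h1 := Real.cosh_pos (z.1 b / 2)
        have h2 := Real.cosh_pos (z.1 c / 2)
        positivity
    · refine ContDiffAt.sub (ContDiffAt.log ?_ ?_) (hls a)
      · exact ((hcosh b).mul ((hq a).div_const 2).neg.exp).add (hcosh c)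
      · have h1 := Real.cosh_pos (z.1 b / 2)
        have h2 := Real.cosh_pos (z.1 c / 2)
        positivity
    · exact hd

omit [DecidableEq J] in
theorem GS_t (w : Word J) (i : Fin (w.n + 1)) {z : PS J} : ContDiffAt ℝ 2 (w.t i) z := by
  unfold Word.t
  exact (GS_snd _).add (contDiffAt_const.mul (GS_fst _))

omit [DecidableEq J] in
theorem GS_L (w : Word J) (σ : Fin (w.n + 1) → Bool) {z : PS J} (hz : z ∈ Cone J) :
    ContDiffAt ℝ 2 (w.L σ) z := by
  unfold Word.L
  refine ContDiffAt.sum (fun i _ => ?_)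
  exact ((contDiffAt_const.mul (GS_t w i)).div_const 2).add (GS_g _ _ _ hz)

omit [DecidableEq J] in
theorem GS_Lp (w : Word J) (b : Bool) (σ : Fin (w.n + 1) → Bool) {z : PS J} (hz : z ∈ Cone J) :
    ContDiffAt ℝ 2 (w.Lp b σ) z := by
  unfold Word.Lp
  refine ContDiffAt.sum (fun i _ => ?_)
  exact ((contDiffAt_const.mul (GS_t w i)).div_const 2).add (GS_g _ _ _ hz)

omit [DecidableEq J] in
theorem GS_F (w : Word J) {z : PS J} (hz : z ∈ Cone J) : ContDiffAt ℝ 2 w.F z := by
  unfold Word.F Word.W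
  exact ContDiffAt.sum (fun σ _ => (GS_L w σ hz).exp)

omit [DecidableEq J] in
theorem GS_H (w : Word J) {z : PS J} (hz : z ∈ Cone J) (hF : 2 < w.F z) :
    ContDiffAt ℝ 2 w.H z := by
  unfold Word.H
  have hF' := GS_F w hz
  have h4 : 0 < w.F z ^ 2 - 4 := by nlinarith
  have hsq : ContDiffAt ℝ 2 (fun z => Real.sqrt (w.F z ^ 2 - 4)) z :=
    ((hF'.pow 2).sub contDiffAt_const).sqrt h4.ne'
  refine contDiffAt_const.mul (ContDiffAt.log ((hF'.add hsq).div_const 2) ?_)
  have := Real.sqrt_nonneg (w.F z ^ 2 - 4)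
  have : 0 < (w.F z + Real.sqrt (w.F z ^ 2 - 4)) / 2 := by linarith
  exact this.ne'

/-- GS: smoothness -/
theorem GS : GS_stmt := by
  intro J _ _
  refine ⟨fun A s s' z hz => (GS_g A s s' hz).contDiffWithinAt,
    fun w σ z hz => (GS_L w σ hz).contDiffWithinAt,
    fun w b σ z hz => (GS_Lp w b σ hz).contDiffWithinAt,
    fun w z hz => (GS_F w hz).contDiffWithinAt,
    fun w h z hz => (GS_H w hz (h z hz)).contDiffWithinAt⟩

end Pool.Agent.helper73.AD
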